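import Mathlib
import Pool.Agent.L0h40.EU.Red

/-!
# Tate classes and semisimplicity for products of elliptic curves with arbitrary smooth varieties:
few exceptional curves

Let `U` be an arbitrary variety over the field with `q` elements, for instance smooth but not
necessarily proper, and `R` a finite set of nonzero complex numbers that contains, up to roots of
unity, the eigenvalues of Frobenius on the cohomology groups `H m` of `U` (we fix an isomorphism
of the algebraic closure of `ℚ_ℓ` with `ℂ`). Nothing else is assumed about the eigenvalues. Let `n`
be the number of the elements of `R` that are not, up to roots of unity, rational powers of `q`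
(`angular q R`).

`Transfers F G Q` is the following property of an abelian variety `A` and a variety `B` over the
field with `Q` elements (`F` and `G m` are the Frobenius endomorphisms on the first cohomology of `A`
and on the cohomology of degree `m` of `B`; the cohomology of `A × B` is given by the formula of
Künneth):

* If the Tate conjecture (surjectivity of the cycle maps) and the semisimplicity of the eigenvalue
  `1` hold for `B` over all finite extensions, in all degrees, then they hold for `A × B`. More
  precisely each element of the generalized eigenspace, for the eigenvalue `Q ^ (i N)`, of the `N`-th
  power of Frobenius on the cohomology of degree `2 i` of `A × B` is an eigenvector of some power of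
  Frobenius and a combination of products of classes of divisors on `A` and of classes of
  cycles on `B`. (By the theorem of Tate the classes in `⋀² H¹(A)` on which a power of Frobenius
  acts by the power of `Q` are combinations of classes of divisors.)
* The semisimplicity alone, over all finite extensions, holds for `A × B` if and only if it holds for
  `B`.

`TransfersFor q s P P'` says that `Transfers` holds over the field with `q ^ s` elements, for all `B`
whose eigenvalues have the property `P'` and all `A` whose eigenvalues have the property `P` or
are supersingular (the square root of `q ^ s` up to a root of unity); the latter is
allowed only if no eigenvalue for `B` is, up to roots of unity, an odd power of the square root of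
`q ^ s`.

The theorem, for all `U` and `R`:

* (`R` stable under complex conjugation.) There is a set `D` of at most `n / 2` negative integers such
  that `Transfers` holds, over all finite extensions, for all `B` with the eigenvalues of `U` (for
  instance `U` over the extension) and all abelian varieties `A` isogenous to products of
  elliptic curves, ordinary or supersingular (with the restriction above), if the endomorphism
  algebra of none of the ordinary ones is generated by the square root of an element of `D`.
* Moreover this is true for an arbitrary family `A i` of abelian varieties over finite extensions
  instead of the ordinary elliptic curves, provided that the eigenvalues of Frobenius `π i j` (one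
  out of each complex conjugate pair, for all `i` and `j`) define multiplicatively independent
  angles `π i j / conj (π i j)`: there are at most `n / 2` exceptional members `A i`.
* (`R` stable under all automorphisms of `ℂ`; if `U` is proper and smooth then the eigenvalues have
  this property by Deligne, in general one can enlarge `R`.) Let the hull of `R` consist of the
  numbers a power of which is a product of powers of `q` and of elements of `R`. The ordinary elliptic
  curves over finite extensions whose eigenvalues belong to the hull (the exceptional ones) are those
  with an endomorphism algebra generated by the square root of an element of a set `D` of at most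
  `n / 2` negative integers, all of which have a square root in the field generated by `R`.
  `Transfers` holds for all varieties `B` whose eigenvalues belong to the hull (for
  instance all powers of `U`) and all products `A` of ordinary elliptic curves that are not
  exceptional, and of supersingular ones (with the restriction above). Here the family of the
  ordinary elliptic curves can be replaced by any family of abelian varieties whose eigenvalues
  are separated by sign changes, that is by automorphisms of `ℂ` which induce on each pair of complex
  conjugate eigenvalues the identity or the complex conjugation.
* So the conjectures for the products of `U` with all products of elliptic curves are reduced to the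
  products `A' × U`, where `A'` is a product of the finitely many exceptional elliptic curves, at most
  `n / 2` up to isogeny over an algebraic closure, and supersingular ones (`Reduction`): they
  imply the conjectures for `A × (A' × U)` for all products `A` of other elliptic curves.

The proof: for two ordinary elliptic curves with the same endomorphism algebra the twelfth powers of
the eigenvalues over a common field agree (up to conjugation), and the angles of curves with different
endomorphism algebras are independent, since they can be separated by automorphisms. A Tate class of
`A × B` which is not a combination of products comes from a relation between an eigenvalue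
of `B` and a product of eigenvalues of `A` without complex conjugate pairs. The
eigenvalues of `B` which satisfy such relations come in complex conjugate pairs; for each pair
it is enough to exclude one member of the family.
-/

set_option autoImplicit false

namespace Pool.Agent.Results.MP_81632f_ag.EllipticCurvesTimesSmooth

open Pool.Agent.L0h40.EU Pool.Agent.TH44.SS

/-- Few exceptional members of independent families, and few exceptional elliptic curves, for the
varieties with eigenvalues in `R`. -/
def FewExceptions (q : ℕ) (R : Finset ℂ) : Prop :=
  (∀ {I : Type} {J : I → Type} (d : I → ℕ) (π : ∀ i, J i → ℂ), IsFamily q d π →
    ∃ S : Finset I, 2 * S.card ≤ (angular q R).ncard ∧ ∀ s : ℕ, 0 < s →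
      TransfersFor q s (fun z => ∃ i, i ∉ S ∧ ∃ j : J i, IsPower (d i) s (π i j) z)
        (InPowers R s)) ∧
  ∃ D : Finset ℤ, (∀ δ ∈ D, δ < 0) ∧ 2 * D.card ≤ (angular q R).ncard ∧ ∀ s : ℕ, 0 < s →
    TransfersFor q s (fun z => ∃ a : ℤ, IsOrdinary q s a z ∧
      ∀ δ ∈ D, ¬ IsSquare (δ * (a ^ 2 - 4 * (q : ℤ) ^ s))) (InPowers R s)

/-- The exceptional elliptic curves are those with eigenvalues in the hull of `R`; there are at most
`n / 2` of them up to isogeny over an algebraic closure. For all others, and all
varieties with eigenvalues in the hull, `Transfers` holds. The same for all families separated by
sign changes. -/
def HullExceptions (q : ℕ) (R : Finset ℂ) : Prop :=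
  (∃ D : Finset ℤ, 2 * D.card ≤ (angular q R).ncard ∧
    (∀ δ ∈ D, δ < 0 ∧ ∃ w ∈ Subfield.closure (R : Set ℂ), w ^ 2 = (δ : ℂ)) ∧
    ∀ s : ℕ, 0 < s → ∀ (a : ℤ) (z : ℂ), IsOrdinary q s a z →
      (Hull q R z ↔ ∃ δ ∈ D, IsSquare (δ * (a ^ 2 - 4 * (q : ℤ) ^ s)))) ∧
  (∀ s : ℕ, 0 < s →
    TransfersFor q s (fun z => ∃ a : ℤ, IsOrdinary q s a z ∧ ¬ Hull q R z) (Hull q R)) ∧
  ∀ {I : Type} (d : I → ℕ) (π : I → ℂ), IsSignFamily q d π →
    ({i | Hull q R (π i)}.Finite ∧ 2 * {i | Hull q R (π i)}.ncard ≤ (angular q R).ncard) ∧
    ∀ s : ℕ, 0 < s →
      TransfersFor q s (fun z => ∃ i, ¬ Hull q R (π i) ∧ IsPower (d i) s (π i) z) (Hull q R)

/-- **Few exceptional elliptic curves for each variety.** -/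
theorem result (q : ℕ) (hq : IsPrimePow q) (R : Finset ℂ) (hR : (0 : ℂ) ∉ R) :
    ((∀ ρ ∈ R, starRingEnd ℂ ρ ∈ R) → FewExceptions q R) ∧
    ((∀ τ : ℂ ≃+* ℂ, ∀ ρ ∈ R, τ ρ ∈ R) → HullExceptions q R ∧ Reduction q R) :=
  ⟨fun hc => ⟨fun _ _ h => family_main h hq.pos.ne' hR hc, ell_main hq hR hc⟩,
    fun hc => ⟨⟨(ell_hull hq hR hc).1, (ell_hull hq hR hc).2,
      fun _ _ h => sign_main h hq.pos.ne' hR hc⟩, reduction hq hR hc⟩⟩

end Pool.Agent.Results.MP_81632f_ag.EllipticCurvesTimesSmooth
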