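import Pool.Agent.L0h12.NR.Proof

/-!
# The conjectures `B^n` for products of arbitrary smooth varieties with independent families

Let `κ` be a finite field with `q` elements, and `𝒱` a class of smooth projective varieties over `κ`,
closed under products, with Chow groups `A` with rational coefficients and a Weil cohomology theory
`H` (framework of helper492 and helper484: `TheoryData`, `IsChow`, `IsWeil`).

Call a complex number `x ≠ 0` trivial (`IsTrivial`) if a power of `x` is a power of `q`. Let `X_i` (`i` in a
finite or infinite set `ι`) be varieties in `𝒱` such that the cohomology of `X_i` is generated by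
classes of algebraic cycles and a Frobenius stable part `T_i`, the eigenvalues of Frobenius on `T_i`
being nontrivial elements of a group `Γ_i` of algebraic numbers, stable under all automorphisms of `ℂ`
(`IsAlgebraOfType`; so the Tate conjecture holds for `X_i` over all finite extensions of `κ`; `Γ_i` can
be the group generated by the conjugates of the eigenvalues). We assume that the groups `Γ_i` are
independent (`IsIndependentFamily`): modulo trivial elements `Γ_i` and `Γ_j` (`i ≠ j`) have no common
Galois constituent, that is, for nontrivial `x ∈ Γ_i` and `y ∈ Γ_j` there is a product of powers of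
automorphisms, an element `n` of the group ring, with `x ^ n` trivial and `y ^ n` nontrivial. Let
`g_i ≥ 1` be such that the conjugates of every nontrivial element of `Γ_i` generate a group of rank at
least `g_i` modulo trivial elements.

Let `U` be **any** smooth variety over `κ` (not necessarily proper), and `Z` a variety in `𝒱` (for example
a point). For `X` in `𝒱` let
* `T^n(X) = CH^n(X × U) ⊗ ℚ_ℓ`, with the Frobenius endomorphism `φT` of `U`,
* `R^n(X) = H^{2n}(X̄ × Ū, ℚ_ℓ)`, in `R(X) = H(X̄) ⊗ H(Ū)`, with the Frobenius endomorphism `φ` of `U`; the
  eigenvalue `1` of `Frob_q` on `H^{2n}(X̄ × Ū, ℚ_ℓ(n))` is the eigenvalue `q ^ n` of `Φ = F_X ⊗ φ` on `R^n(X)`,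
* `reg : T^n(X) → R^n(X)` the cycle class map `c^n` of `X × U`.
On `T` and `R` act the correspondences between the varieties in `𝒱` (on `R` by their cohomology
classes), and the Frobenius endomorphism of `X × U` is `q ^ n` on `T^n(X)`; only such properties are
used (`IsMixedTheory`, `IsCycleTheory`, `IsRegulator`). Let `χ` be a polynomial with rational
coefficients and `χ (0) ≠ 0` which is satisfied by the Frobenius endomorphism of `U` on the cohomology
of `U`. Let `r` be such that the conjugates of the products of the eigenvalues of Frobenius on `H(Z)`
and the roots of `χ` generate a group `Δ` of rank at most `r` modulo trivial elements (`HasRankLE`).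

**Theorem.** The set `S` of all `i` such that `Γ_i` and `Δ` have, modulo trivial elements, a
nontrivial element in common is finite, and `∑_{i ∈ S} g_i ≤ r`. Let `V` be the product of `Z` and of
finitely many of the `X_i` with `i ∉ S` (pairwise different), and `d = dim V - dim Z`.
* For every `n`: `c^n` is surjective onto the invariants of Frobenius and the eigenvalue `1` is
  semisimple for `V × U` if and only if this holds for `Z × U` and all `l` with `n - d ≤ l ≤ n`. Nothing else
  is assumed.
* Assume that homologically trivial self-correspondences of degree zero of the products `V` are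
  nilpotent (known for example if `Z` is a point and the `X_i` are abelian varieties) and that
  `χ (φT) = 0` on the Chow groups of the `X × U`. Then
  **`B^n(V × U)` is equivalent to the assertions `B^l(Z × U)` with `n - d ≤ l ≤ n`** (`c^n` is bijective onto the
  invariants and the eigenvalue `1` is semisimple: both questions).

So all but finitely many members of every independent family can be added to an arbitrary smooth
variety `U`, the exceptional ones having total rank at most the rank of `U`; and there are no
exceptions if `g_i > r` for all `i`.

The second part of the result gives an example: let `E_i` be ordinary elliptic curves over `κ` with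
traces of Frobenius `a_i` (prime to `q`, `a_i ^ 2 < 4 q`) such that `(a_i ^ 2 - 4 q) (a_j ^ 2 - 4 q)` is not a
square for `i ≠ j`; so the `E_i` are pairwise not isogenous over the algebraic closure. The groups
generated by the conjugates of the Frobenius eigenvalues of the `E_i` form an independent
family, with `g_i = 1`. So the theorem applies to arbitrary powers `X_i = E_i ^ {m_i}` with `m_i ≥ 1` (their
cohomology is generated by classes of algebraic cycles, and eigenspaces for `π ^ a π̄ ^ b` with `a ≠ b`):
for any `U` at most `r` of the curves have to be excluded.

The proof: let `∏ α_i` (`i ∈ I`) times an eigenvalue `b` of `Z × U` be trivial, with nontrivial `α_i` in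
`Γ_i`. If `I` has two elements then by independence an element of the group ring kills one of the
`α_i` but not all of them. So by induction some nontrivial element of one `Γ_i` with `i ∈ I` is, up to
trivial elements, in the group `Δ`, and `i ∈ S`. In the same way the groups `Γ_i` are linearly
independent modulo trivial elements, which bounds the ranks. So for `i ∉ S` there are no
resonances, and one concludes as in `HyperplaneCoverings` (helper876): the intersection pairing
on the algebraic classes of `X_i` is not degenerate, and a polynomial in the Frobenius endomorphism
shows that the projector to the algebraic classes of `X_i` is the identity on the generalized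
eigenvectors for `q ^ n`, and on cycles.

helper12; built on the library of the starting files (helper876: `N876/CG` and the definitions for
smooth varieties `N876/R816`; correspondences, nilpotence and the Kunneth formula: helpers 484, 492,
550; the idea to work relative to a scheme: helper156; automorphisms of `ℂ`: helper977).
-/

set_option autoImplicit false

open Polynomial CategoryTheory AlgebraicGeometry

namespace Pool.Agent.Results.MP_81632f_ag.IndependentFamilies

open Pool.Agent.H914 Pool.Agent.H914.VarClass Pool.Agent.H914.VarClass.Obj Pool.Agent.W492.BB
  Pool.Agent.W484.CK Pool.Agent.N876.R816 Pool.Agent.L0h12.NR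

/-- **The conjectures `B^n` for products of arbitrary smooth varieties with independent families.** -/
theorem result {κ : Type} [Field κ] [Fintype κ] :
    (∀ {ι : Type} {𝒱 : VarClass κ} (A : TheoryData.{0, 0, 0} 𝒱 ℚ) [IsChow A] {K : Type} [Field K]
      [IsAlgClosed K] [CharZero K] (H : WeilTheoryData.{0, 0, 0} A K) [IsWeil H] (τ : K →+* ℂ)
      (g : ι → ℕ) (Γ : ι → Subgroup ℂˣ) (r : ℕ) (F : ∀ X : 𝒱.Obj, X ⟶ X) (X : ι → 𝒱.Obj)
      (Z : 𝒱.Obj) (χ : ℚ[X]), IsSystem g Γ r H τ F X Z χ →
      ∃ S : Finset ι, ∑ i ∈ S, g i ≤ r ∧
        (∀ i, i ∈ S ↔ Meets (Fintype.card κ) (Γ i) (hull (productsOf (H.pull (F Z)) χ τ))) ∧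
        ∀ (T R : MotivicData A) (φT : ∀ X, T.M X →ₗ[ℚ] T.M X)
          (_ : IsCycleTheory T φT F (Fintype.card κ)) (φ : ∀ X, R.M X →ₗ[ℚ] R.M X)
          (_ : IsMixedTheory H R φ χ) (reg : ∀ X, T.M X →ₗ[ℚ] R.M X)
          (_ : IsRegulator T R φT φ reg) (L : List {i // i ∉ S}), L.Nodup →
          Conclusions H F (Fintype.card κ) χ (fun i : {i // i ∉ S} => X i) Z φT φ reg L) ∧
    ∀ (ι : Type) (a : ι → ℤ) (x : ι → ℂˣ), (∀ i, IsOrdinary (Fintype.card κ) (a i) (x i)) →
      (∀ i j, i ≠ j →
        ¬ IsSquare ((a i ^ 2 - 4 * Fintype.card κ) * (a j ^ 2 - 4 * Fintype.card κ))) →
      IsIndependentFamily (Fintype.card κ) (fun _ : ι => 1) fun i => hull {(x i : ℂ)} :=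
  ⟨fun A _ _ _ _ _ H _ τ g Γ r F X Z χ h => main A H τ g Γ r F X Z χ h,
    fun _ a x h hD => ordinary_family Fintype.one_lt_card a x h fun i j hij => hD i j hij⟩

end Pool.Agent.Results.MP_81632f_ag.IndependentFamilies
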