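import Pool.Agent.L0h13.QD.Frob

/-!
# The proportion of the algebraic classes among the Tate classes on the powers of a variety

Let `X` be a smooth projective variety over a finite field with `q` elements. (The Kuenneth projectors are algebraic by
Katz and Messing.) Motives are motives with coefficients in an algebraically closed field `K` containing the
field of `l`-adic numbers, with correspondences of all degrees.

* `NumMotives`: the motives modulo numerical equivalence (Jannsen: a semisimple category). `R` is the semiring
  of isomorphism classes with direct sum and tensor product, `mult x s` is the multiplicity of the simple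
  motive `s` in `x`, `dim x` is the dimension of the `l`-adic cohomology of `x`. `M.rk x` is the
  multiplicity of the unit motive, so `M.rk (v ^ r)`, where `v` is the class of the motive of `X`, is the rank of
  the group of algebraic cycles (of all codimensions) on `X^r` modulo numerical equivalence.
* `FullGrowth`: the ranks `M.rk (v ^ (2 k))` are not bounded by `c ^ k` if `c < (dim v) ^ 2`. It follows
  from the algebraicity of the projector onto the even cohomology: the graphs of the permutations of
  the factors suffice by Schur-Weyl duality.
* `FrobeniusData`: the Frobenius endomorphism `F` of a simple motive `s` is a scalar modulo numerical equivalence,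
  so it has only one eigenvalue on the cohomology of `s`; `T s` says that it is a power `q^i` (in degree `2i`).
  `M.pole T x` is the multiplicity of these eigenvalues on the cohomology of `x`; so
  `M.pole T (v ^ r)` is the sum over `i` of the orders in question, `ord_{t=1} det (1 - F t | H^(2i)(X^r)(i))`.
  `h x` is the dimension of the span of the cycle classes, `inv x` is the dimension of the space of
  the Tate classes (the sum over `i` of the dimensions of `ker (1 - F)` on `H^(2i)(i)`). If homological and
  numerical equivalence coincide, then `F` is a scalar on the cohomology of each simple motive (`semisimple`).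
  `CycleAlgebra`: by the theorem of André and Kahn the projection from the motives generated by `X` modulo
  homological equivalence to those modulo numerical equivalence has a monoidal section, so by Deligne the
  latter are the representations of a reductive group `G`, with the cohomology as fibre functor. `B` is the algebra of the
  functions `g ↦ l (g z)` on `G`, `z` a cycle class modulo homological equivalence, `l` a linear form on the
  cohomology. It is reduced; `part s` belongs to the simple motive `s`, and is isomorphic to the tensor
  product of the space of the cycle classes on `s` with the dual of the cohomology of `s`; the classes on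
  `s ≠ 1` are numerically trivial and numerically trivial classes form an ideal.

**Theorem.** Let `r_k` be the rank of the cycles (of all codimensions) on `X^(2k)` modulo numerical equivalence and
`t_k = M.pole T (v ^ (2 k))`.

1. `t_k / r_k` converges to `N = ∑ (dim s)^2`, the sum over the simple motives of Tate type in the powers of `X`
   (a natural number, or infinity).
2. If `r_k / t_k` does not converge to zero then, for all powers of `X`, homological and numerical equivalence
   coincide and the eigenvalue `1` of the Frobenius endomorphism is semisimple.
3. If `r_k ≥ c t_k` for infinitely many `k` and one constant `c > 1/2`, then, for all powers `X^r`, cycle classes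
   span the Tate classes, the eigenvalue `1` is semisimple, and homological and numerical equivalence coincide;
   so `N = 1` and `r_k = t_k` for all `k`.

The number `t_k` is determined by the eigenvalues of Frobenius on the cohomology of `X`.
-/

set_option autoImplicit false

open Filter Topology
open scoped ENNReal

namespace Pool.Agent.Results.MP_81632f_ag.OneHalfLaw

open Pool.Agent.L0h13.QD NumMotives

/-- **The proportion of the algebraic classes among the Tate classes on the powers of a variety.** -/
theorem result (M : NumMotives) (v : M.R) (hv : M.IsVariety v) (hg : M.FullGrowth v)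
    (D : FrobeniusData M v) :
    -- 1. the limit
    Tendsto (fun k : ℕ => (M.pole D.T (v ^ (2 * k)) : ℝ≥0∞) / (M.rk (v ^ (2 * k)) : ℝ≥0∞)) atTop
      (𝓝 (∑' s : {s : M.S // Occurs v s ∧ D.T s}, ((M.dim (M.cls s) ^ 2 : ℕ) : ℝ≥0∞))) ∧
    -- 2. semisimplicity, and homological = numerical equivalence
    (¬ Tendsto (fun k : ℕ => (M.rk (v ^ (2 * k)) : ℝ) / (M.pole D.T (v ^ (2 * k)) : ℝ)) atTop (𝓝 0) →
      (∀ r : ℕ, D.h (v ^ r) = M.rk (v ^ r)) ∧ (∀ r : ℕ, D.inv (v ^ r) = M.pole D.T (v ^ r))) ∧
    -- 3. the one-half law
    (∀ c : ℝ, 1 / 2 < c →
      (∃ᶠ k : ℕ in atTop, c * (M.pole D.T (v ^ (2 * k)) : ℝ) ≤ (M.rk (v ^ (2 * k)) : ℝ)) →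
      ∀ r : ℕ, M.rk (v ^ r) = M.pole D.T (v ^ r) ∧ D.h (v ^ r) = D.inv (v ^ r) ∧
        D.inv (v ^ r) = M.pole D.T (v ^ r) ∧ D.h (v ^ r) = M.rk (v ^ r)) := by
  have hle : ∀ x, D.h x ≤ M.pole D.T x := fun x => (D.h_le x).trans (D.inv_le x)
  have hD : index v (M.pole D.T) ≠ ⊤ → ∀ r : ℕ, D.h (v ^ r) = M.rk (v ^ r) := by
    intro hN r
    apply all_of_index_lt_two hv D.h D.h_one
    rcases index_eq_one_or_top hv D.h_one D.alg with h | h
    · rw [h]; norm_num
    · exfalso
      apply hN
      have := index_mono (v := v) D.h (M.pole D.T) hle
      rw [h] at this
      exact top_le_iff.1 this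
  refine ⟨?_, ?_, ?_⟩
  · rw [← index_pole]
    exact tendsto_index hv hg _
  · intro hnt
    have hN : index v (M.pole D.T) ≠ ⊤ := by
      intro hN
      apply hnt
      have h1 := tendsto_atTop_of_index hv hg _ hN
      have h2 := h1.inv_tendsto_atTop
      refine h2.congr ?_
      intro k
      simp only [Pi.inv_apply, inv_div]
    exact ⟨hD hN, D.semisimple (hD hN)⟩
  · intro c hc hf
    have hc0 : 0 < c := by linarith
    have hidx : index v (M.pole D.T) < 2 := by
      have h1 := index_le_of_frequently hv hg (M.pole D.T) (1 / c) (hf.mono fun k hk => by
        rw [one_div, inv_mul_eq_div, le_div_iff₀ hc0]; linarith)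
      refine lt_of_le_of_lt h1 ?_
      have : (2 : ℝ≥0∞) = ENNReal.ofReal 2 := by simp
      rw [this, ENNReal.ofReal_lt_ofReal_iff (by norm_num)]
      rw [div_lt_iff₀ hc0]; linarith
    have hN : index v (M.pole D.T) ≠ ⊤ := fun h => by
      rw [h] at hidx
      exact absurd hidx (by simp)
    have hall := all_of_index_lt_two hv (M.pole D.T) (pole_one _ D.unit_T) hidx
    have hh := hD hN
    have hs := D.semisimple hh
    intro r
    refine ⟨(hall r).symm, ?_, hs r, hh r⟩
    rw [hs r, hh r, hall r]

end Pool.Agent.Results.MP_81632f_ag.OneHalfLaw
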