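import Mathlib
import Pool.Agent.L0h40.EU.GovMain

/-!
# Finiteness: the conjectures for the products of a variety with all products of elliptic curves
follow from the conjectures for one of these products

Let `U` be an arbitrary variety over the field with `q` elements, for instance smooth but not
necessarily proper, and `R` a finite set of nonzero complex numbers, stable under the automorphisms of
`ℂ`, that contains, up to roots of unity, the eigenvalues of Frobenius on the cohomology groups `H m` of
`U` (we fix an isomorphism of the algebraic closure of `ℚ_ℓ` with `ℂ`; if `U` is proper and smooth
then the set of the eigenvalues is stable by Deligne, in general one can enlarge it if it consists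
of algebraic numbers). Let `n` be the number of the elements of `R` that are not, up to roots
of unity, rational powers of `q` (`angular q R`).

The theorem: there are at most `n / 2` imaginary quadratic fields, generated by square roots of
the elements of a set `D` of negative integers (all of them contained in the field generated by `R`), and
an integer `K`, such that the following holds over all finite extensions, with `Q = q ^ s` elements. Let
`A₀` be any abelian variety which contains up to isogeny, for all `δ` in `D`, the `K`-th power of an
ordinary elliptic curve with endomorphism algebra `ℚ(√δ)`, and a supersingular elliptic curve,
for example the product of these elliptic curves. Let `A` be an arbitrary product of elliptic curves,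
ordinary or supersingular (or, more generally, of ordinary elliptic curves and supersingular
abelian varieties).

* If the Tate conjecture (surjectivity of the cycle maps) and the semisimplicity of the
  eigenvalue `1` hold for the variety `A₀ × U` over all finite extensions, in all
  degrees, then they hold for `A × U`. More precisely, each element of the generalized
  eigenspace, for the eigenvalue `Q ^ (i N)`, of the `N`-th power of Frobenius on `⋀ ^ a H¹(A) ⊗ H m`,
  `a + m = 2 i`, is an eigenvector of some power of Frobenius, and a combination of products of
  classes of divisors on `A` and of pull-backs, under maps `A × U → A₀ × U`, of (Künneth
  components of) classes of cycles on `A₀ × U`.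
* If the semisimplicity of the eigenvalue `1` holds for `A₀ × U` over all finite extensions, then it
  holds for `A × U`.

By the theorem of Tate the linear maps `H¹(A₀) → H¹(A)` that commute with some power of
Frobenius are the linear combinations of those defined by the homomorphisms from `A` to `A₀`, over
finite extensions; the maps they induce on the exterior powers are combinations of pull-backs under
homomorphisms. The Künneth components of a class of a cycle on `A₀ × U` are also combinations of
classes of cycles, since the multiplication by an integer on `A₀` separates them.

The same is true for each family of abelian varieties `A i` over finite extensions whose eigenvalues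
`π i` (one out of each complex conjugate pair) are separated by sign changes: `A₀` has to
contain, up to roots of unity, the eigenvalues that belong to the hull of `R` (that is, a
power is a product of powers of `q` and elements of `R`), `K` times, and a supersingular
elliptic curve; there are at most `n / 2` pairs of such eigenvalues.

The proof: the exponents of the eigenvalues of elliptic curves in a relation with an eigenvalue of
`U`, after cancelling complex conjugate pairs, are determined by the eigenvalue of `U`, since the
angles of elliptic curves with different endomorphism algebras are independent, and there is only
one such curve, up to isogeny over an algebraic closure, with a given endomorphism algebra; they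
vanish unless the angle is a combination of logarithms of elements of `R`, which can be seen by the
action of the automorphisms. A product of eigenvectors in `H¹(A)`, without complex
conjugate pairs, is then the image of a product of eigenvectors in `H¹(A₀)` under a linear map
compatible with Frobenius.
-/

set_option autoImplicit false

namespace Pool.Agent.Results.MP_81632f_ag.OneTestVariety

open Pool.Agent.L0h40.EU Pool.Agent.TH44.SS

/-- **One test variety for all products of elliptic curves.** -/
theorem result (q : ℕ) (hq : IsPrimePow q) (R : Finset ℂ) (hR : (0 : ℂ) ∉ R)
    (hc : ∀ τ : ℂ ≃+* ℂ, ∀ ρ ∈ R, τ ρ ∈ R) :
    (∃ (D : Finset ℤ) (K : ℕ), 2 * D.card ≤ (angular q R).ncard ∧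
      (∀ δ ∈ D, δ < 0 ∧ ∃ w ∈ Subfield.closure (R : Set ℂ), w ^ 2 = (δ : ℂ)) ∧
      ∀ s : ℕ, 0 < s → GovernsFor q s R (fun F₀ => IsEllTest q K s D F₀)
        (fun z => (∃ a : ℤ, IsOrdinary q s a z) ∨ IsSuper q s z)) ∧
    ∀ {I : Type} (d : I → ℕ) (π : I → ℂ), IsSignFamily q d π →
      ({i | Hull q R (π i)}.Finite ∧ 2 * {i | Hull q R (π i)}.ncard ≤ (angular q R).ncard) ∧
      ∃ K : ℕ, ∀ s : ℕ, 0 < s → GovernsFor q s R (fun F₀ => IsTest q R K s d π F₀)
        (fun z => (∃ i, IsPower (d i) s (π i) z) ∨ IsSuper q s z) :=
  ⟨ell_governs hq hR hc, fun _ _ h => ⟨(sign_main h hq.pos.ne' hR hc).1,
    sign_governs h hq.pos.ne' hR hc⟩⟩

end Pool.Agent.Results.MP_81632f_ag.OneTestVariety
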